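import Pool.Agent.H837R3.LA.Defs

set_option autoImplicit false

namespace Pool.Agent.H837R3.LA

open Finset Function

variable {ι : Type} [Fintype ι] [DecidableEq ι]

theorem PosVal.update {v : ι → ℝ} (hv : PosVal v) (i : ι) {b : ℝ} (hb : 0 < b) :
    PosVal (Function.update v i b) := by
  intro j
  by_cases h : j = i
  · subst h; simpa using hb
  · simpa [h] using hv j

namespace Mechanism

variable (M : Mechanism ι)

theorem x_le_one {v : ι → ℝ} (hv : PosVal v) (i : ι) : M.x v i ≤ 1 :=
  le_trans (single_le_sum (f := fun i => M.x v i) (fun j _ => M.alloc_nonneg v hv j)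
    (mem_univ i)) (M.alloc_sum_le v hv)

/-- reversed truthfulness -/
theorem truthful' {v : ι → ℝ} (hv : PosVal v) (i : ι) {b : ℝ} (hb : 0 < b) :
    M.x v i * b - M.p v i ≤ M.x (update v i b) i * b - M.p (update v i b) i := by
  have h := M.truthful (update v i b) (hv.update i hb) i (v i) (hv i)
  rw [update_idem, update_eq_self, update_self] at h
  exact h

theorem x_mono {v : ι → ℝ} (hv : PosVal v) (i : ι) {b : ℝ} (hb : v i < b) :
    M.x v i ≤ M.x (update v i b) i := by
  have hb0 : 0 < b := (hv i).trans hb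
  have h1 := M.truthful v hv i b hb0
  have h2 := M.truthful' hv i hb0
  nlinarith [sub_pos.mpr hb]

theorem p_le {v : ι → ℝ} (hv : PosVal v) (i : ι) : M.p v i ≤ M.x v i * v i := by
  have := M.rational v hv i
  linarith

theorem p_step {v : ι → ℝ} (hv : PosVal v) (i : ι) {b : ℝ} (hb : 0 < b) :
    M.p (update v i b) i ≤ M.p v i + b * (M.x (update v i b) i - M.x v i) := by
  have h2 := M.truthful' hv i hb
  linarith

/-- The mechanism that never sells. -/
def zero (ι : Type) [Fintype ι] [DecidableEq ι] : Mechanism ι where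
  x := fun _ _ => 0
  p := fun _ _ => 0
  alloc_nonneg := by intros; simp
  alloc_sum_le := by intros; simp
  truthful := by intros; simp
  rational := by intros; simp

/-- the least utility of bidder `i` over all her positive values, the other bids being fixed -/
noncomputable def least (v : ι → ℝ) (i : ι) : ℝ :=
  sInf ((fun z => M.x (update v i z) i * z - M.p (update v i z) i) '' Set.Ioi 0)

theorem least_update (v : ι → ℝ) (i : ι) (b : ℝ) : M.least (update v i b) i = M.least v i := by
  unfold least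
  simp only [update_idem]

theorem least_bdd {v : ι → ℝ} (hv : PosVal v) (i : ι) :
    BddBelow ((fun z => M.x (update v i z) i * z - M.p (update v i z) i) '' Set.Ioi 0) := by
  refine ⟨0, ?_⟩
  rintro _ ⟨z, hz, rfl⟩
  have := M.rational _ (hv.update i hz) i
  simpa using this

theorem least_le {v : ι → ℝ} (hv : PosVal v) (i : ι) :
    M.least v i ≤ M.x v i * v i - M.p v i := by
  refine csInf_le (M.least_bdd hv i) ⟨v i, hv i, ?_⟩
  simp

theorem least_nonneg {v : ι → ℝ} (hv : PosVal v) (i : ι) : 0 ≤ M.least v i := by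
  refine le_csInf ⟨_, ⟨1, by simp, rfl⟩⟩ ?_
  rintro _ ⟨z, hz, rfl⟩
  have := M.rational _ (hv.update i hz) i
  simpa using this

theorem neg_p_le_least {v : ι → ℝ} (hv : PosVal v) (i : ι) : -M.p v i ≤ M.least v i := by
  refine le_csInf ⟨_, ⟨1, by simp, rfl⟩⟩ ?_
  rintro _ ⟨z, hz, rfl⟩
  have h := M.truthful' hv i hz
  have h2 := mul_nonneg (M.alloc_nonneg v hv i) (le_of_lt hz)
  simp only
  linarith

open Classical in
/-- The normalised mechanism: least utilities are turned into payments. -/
noncomputable def norm : Mechanism ι where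
  x := fun v i => if PosVal v then M.x v i else 0
  p := fun v i => if PosVal v then M.p v i + M.least v i else 0
  alloc_nonneg := by
    intro v hv i
    simp only [hv, if_true]
    exact M.alloc_nonneg v hv i
  alloc_sum_le := by
    intro v hv
    simp only [hv, if_true]
    exact M.alloc_sum_le v hv
  truthful := by
    intro v hv i b hb
    have hu := hv.update i hb
    simp only [hv, hu, if_true]
    rw [M.least_update]
    have := M.truthful v hv i b hb
    linarith
  rational := by
    intro v hv i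
    simp only [hv, if_true]
    have := M.least_le hv i
    linarith

theorem norm_p {v : ι → ℝ} (hv : PosVal v) (i : ι) : M.norm.p v i = M.p v i + M.least v i := by
  simp [norm, hv]

theorem norm_p_nonneg {v : ι → ℝ} (hv : PosVal v) (i : ι) : 0 ≤ M.norm.p v i := by
  rw [norm_p M hv]
  have := M.neg_p_le_least hv i
  linarith

end Mechanism

theorem revenue_eq (D : (ι → ℝ) →₀ ℝ) (M : Mechanism ι) :
    revenue D M = Finsupp.linearCombination ℝ (fun v => ∑ i, M.p v i) D := by
  simp [revenue, Finsupp.linearCombination_apply]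

theorem revenue_mono {D : (ι → ℝ) →₀ ℝ} (h0 : ∀ v, 0 ≤ D v) (h1 : ∀ v ∈ D.support, PosVal v)
    {M M' : Mechanism ι} (h : ∀ v, PosVal v → ∀ i, M.p v i ≤ M'.p v i) :
    revenue D M ≤ revenue D M' := by
  unfold revenue Finsupp.sum
  refine sum_le_sum fun v hv => ?_
  exact mul_le_mul_of_nonneg_left (sum_le_sum fun i _ => h v (h1 v hv) i) (h0 v)

theorem revenue_le_norm {D : (ι → ℝ) →₀ ℝ} (h0 : ∀ v, 0 ≤ D v)
    (h1 : ∀ v ∈ D.support, PosVal v) (M : Mechanism ι) : revenue D M ≤ revenue D M.norm := by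
  refine revenue_mono h0 h1 fun v hv i => ?_
  rw [M.norm_p hv]
  have := M.least_nonneg hv i
  linarith

/-- payments of a revenue-maximizing mechanism are nonnegative on the support -/
theorem p_nonneg_of_optimal {D : (ι → ℝ) →₀ ℝ} (h0 : ∀ v, 0 ≤ D v)
    (h1 : ∀ v ∈ D.support, PosVal v) {M : Mechanism ι}
    (hM : ∀ M' : Mechanism ι, revenue D M' ≤ revenue D M) {v : ι → ℝ} (hv : v ∈ D.support)
    (i : ι) : 0 ≤ M.p v i := by
  have hle := hM M.norm
  have hpos : 0 < D v := lt_of_le_of_ne (h0 v) (Ne.symm (Finsupp.mem_support_iff.mp hv))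
  by_contra hneg
  push Not at hneg
  have hlt : revenue D M < revenue D M.norm := by
    unfold revenue Finsupp.sum
    refine sum_lt_sum (fun w hw => ?_) ⟨v, hv, ?_⟩
    · refine mul_le_mul_of_nonneg_left (sum_le_sum fun i _ => ?_) (h0 w)
      rw [M.norm_p (h1 w hw)]
      have := M.least_nonneg (h1 w hw) i
      linarith
    · refine mul_lt_mul_of_pos_left ?_ hpos
      refine sum_lt_sum (fun j _ => ?_) ⟨i, mem_univ i, ?_⟩
      · rw [M.norm_p (h1 v hv)]
        have := M.least_nonneg (h1 v hv) j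
        linarith
      · have := M.norm_p_nonneg (h1 v hv) i
        linarith
  linarith

/-- revenues are bounded -/
theorem revenue_le {D : (ι → ℝ) →₀ ℝ} (h0 : ∀ v, 0 ≤ D v) (h1 : ∀ v ∈ D.support, PosVal v)
    (M : Mechanism ι) : revenue D M ≤ D.sum fun v m => m * ∑ i, v i := by
  unfold revenue Finsupp.sum
  refine sum_le_sum fun v hv => ?_
  refine mul_le_mul_of_nonneg_left (sum_le_sum fun i _ => ?_) (h0 v)
  have h2 := M.p_le (h1 v hv) i
  have h3 := M.x_le_one (h1 v hv) i
  have h4 := h1 v hv i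
  nlinarith

theorem revenue_bdd {D : (ι → ℝ) →₀ ℝ} (h0 : ∀ v, 0 ≤ D v) (h1 : ∀ v ∈ D.support, PosVal v) :
    BddAbove (Set.range (revenue D)) := by
  refine ⟨D.sum fun v m => m * ∑ i, v i, ?_⟩
  rintro _ ⟨M, rfl⟩
  exact revenue_le h0 h1 M

theorem revenue_le_OPT {D : (ι → ℝ) →₀ ℝ} (hD : IsDist D) (M : Mechanism ι) :
    revenue D M ≤ OPT D :=
  le_csSup (revenue_bdd hD.1 hD.2.1) ⟨M, rfl⟩

/-- the feasible pairs -/
def Feas (ι : Type) [Fintype ι] [DecidableEq ι] :
    Set (((ι → ℝ) → ι → ℝ) × ((ι → ℝ) → ι → ℝ)) :=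
  {q | (∀ v i, q.1 v i ∈ Set.Icc (0 : ℝ) 1) ∧ (∀ v i, q.2 v i ∈ Set.Icc (0 : ℝ) |v i|) ∧
    (∀ v, PosVal v → ∑ i, q.1 v i ≤ 1) ∧
    (∀ v, PosVal v → ∀ i, ∀ b : ℝ, 0 < b →
      q.1 (update v i b) i * v i - q.2 (update v i b) i ≤ q.1 v i * v i - q.2 v i) ∧
    (∀ v, PosVal v → ∀ i, 0 ≤ q.1 v i * v i - q.2 v i)}

theorem Feas_compact : IsCompact (Feas ι) := by
  have hbox : IsCompact (((Set.univ : Set (ι → ℝ)).pi fun _ =>
      ((Set.univ : Set ι).pi fun _ => Set.Icc (0 : ℝ) 1)) ×ˢ
      ((Set.univ : Set (ι → ℝ)).pi fun v => ((Set.univ : Set ι).pi fun i =>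
        Set.Icc (0 : ℝ) |v i|))) :=
    (isCompact_univ_pi fun _ => isCompact_univ_pi fun _ => isCompact_Icc).prod
      (isCompact_univ_pi fun _ => isCompact_univ_pi fun _ => isCompact_Icc)
  have hx : ∀ (v : ι → ℝ) (i : ι), Continuous
      fun q : ((ι → ℝ) → ι → ℝ) × ((ι → ℝ) → ι → ℝ) => q.1 v i := fun v i =>
    (continuous_apply i).comp ((continuous_apply v).comp continuous_fst)
  have hp : ∀ (v : ι → ℝ) (i : ι), Continuous
      fun q : ((ι → ℝ) → ι → ℝ) × ((ι → ℝ) → ι → ℝ) => q.2 v i := fun v i =>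
    (continuous_apply i).comp ((continuous_apply v).comp continuous_snd)
  refine hbox.of_isClosed_subset ?_ ?_
  · unfold Feas
    simp only [Set.ofPred_and, Set.ofPred_forall]
    refine IsClosed.inter ?_ (IsClosed.inter ?_ (IsClosed.inter ?_ (IsClosed.inter ?_ ?_)))
    · exact isClosed_iInter fun v => isClosed_iInter fun i => isClosed_Icc.preimage (hx v i)
    · exact isClosed_iInter fun v => isClosed_iInter fun i => isClosed_Icc.preimage (hp v i)
    · exact isClosed_iInter fun v => isClosed_iInter fun _ =>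
        isClosed_le (continuous_finsetSum _ fun i _ => hx v i) continuous_const
    · exact isClosed_iInter fun v => isClosed_iInter fun _ => isClosed_iInter fun i =>
        isClosed_iInter fun b => isClosed_iInter fun _ =>
        isClosed_le (((hx _ i).mul continuous_const).sub (hp _ i))
          (((hx _ i).mul continuous_const).sub (hp _ i))
    · exact isClosed_iInter fun v => isClosed_iInter fun _ => isClosed_iInter fun i =>
        isClosed_le continuous_const (((hx _ i).mul continuous_const).sub (hp _ i))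
  · rintro q ⟨h1, h2, -⟩
    exact ⟨fun v _ i _ => h1 v i, fun v _ i _ => h2 v i⟩

/-- a revenue-maximizing mechanism exists -/
theorem exists_optimal {D : (ι → ℝ) →₀ ℝ} (h0 : ∀ v, 0 ≤ D v)
    (h1 : ∀ v ∈ D.support, PosVal v) :
    ∃ M : Mechanism ι, ∀ M' : Mechanism ι, revenue D M' ≤ revenue D M := by
  have hcont : Continuous fun q : ((ι → ℝ) → ι → ℝ) × ((ι → ℝ) → ι → ℝ) =>
      ∑ v ∈ D.support, D v * ∑ i, q.2 v i := by
    refine continuous_finsetSum _ fun v _ => continuous_const.mul
      (continuous_finsetSum _ fun i _ => ?_)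
    exact (continuous_apply i).comp ((continuous_apply v).comp continuous_snd)
  have hne : (Feas ι).Nonempty := by
    refine ⟨(fun _ _ => 0, fun _ _ => 0), ?_⟩
    refine ⟨?_, ?_, ?_, ?_, ?_⟩ <;> intros <;> simp
  obtain ⟨q, hq, hmax⟩ := Feas_compact.exists_isMaxOn hne hcont.continuousOn
  obtain ⟨q1, q2, q3, q4, q5⟩ := hq
  let M : Mechanism ι := ⟨q.1, q.2, fun v _ i => (q1 v i).1, q3, q4, q5⟩
  refine ⟨M, fun M' => le_trans (revenue_le_norm h0 h1 M') ?_⟩
  have hM' : (M'.norm.x, M'.norm.p) ∈ Feas ι := by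
    refine ⟨?_, ?_, ?_, ?_, ?_⟩
    · intro v i
      by_cases hv : PosVal v
      · exact ⟨M'.norm.alloc_nonneg v hv i, M'.norm.x_le_one hv i⟩
      · simp [Mechanism.norm, hv]
    · intro v i
      by_cases hv : PosVal v
      · refine ⟨M'.norm_p_nonneg hv i, ?_⟩
        have h2 := M'.norm.p_le hv i
        have h3 := M'.norm.x_le_one hv i
        have h4 := hv i
        rw [abs_of_pos h4]
        simp only
        nlinarith
      · simp [Mechanism.norm, hv]
    · exact M'.norm.alloc_sum_le
    · exact M'.norm.truthful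
    · exact M'.norm.rational
  exact hmax hM'

end Pool.Agent.H837R3.LA
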