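import Pool.Agent.H837R3.LA.Basic

set_option autoImplicit false
set_option linter.unusedSectionVars false

namespace Pool.Agent.H837R3.LA

open Finset Function

variable {ι : Type} [Fintype ι] [DecidableEq ι] {W : ℕ} [NeZero W]

/-- the near-one value with code `a` -/
noncomputable def nv (δ : ℝ) (a : Fin W) : ℝ := 1 + δ * ((a : ℕ) + 1 : ℝ)

/-- the valuation vector of world `j` with level `t` and codes `c` -/
noncomputable def pt (δ : ℝ) (j : ι) (t : ℝ) (c : ι → Fin W) : ι → ℝ :=
  fun i => if i = j then t else nv δ (c i)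

/-- even codes for world `j` -/
def ev (j : ι) (c : ι → Fin W) : Prop := Even (∑ i ∈ univ.erase j, ((c i : Fin W) : ℕ))

/-- cyclic shift of the code of bidder `i` -/
def rot (i : ι) : (ι → Fin W) ≃ (ι → Fin W) where
  toFun c := update c i (c i + 1)
  invFun c := update c i (c i - 1)
  left_inv c := by simp
  right_inv c := by simp

omit [Fintype ι] in
theorem rot_apply (i : ι) (c : ι → Fin W) : rot i c = update c i (c i + 1) := rfl

theorem ev_rot (hW : Even W) {i j : ι} (hij : i ≠ j) (c : ι → Fin W) :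
    ev j (rot i c) ↔ ¬ ev j c := by
  unfold ev
  have hi : i ∈ univ.erase j := mem_erase.mpr ⟨hij, mem_univ i⟩
  rw [← add_sum_erase _ _ hi, ← add_sum_erase (univ.erase j) (fun i => ((c i : Fin W) : ℕ)) hi]
  have hrest : ∑ x ∈ (univ.erase j).erase i, ((rot i c x : Fin W) : ℕ) =
      ∑ x ∈ (univ.erase j).erase i, ((c x : Fin W) : ℕ) := by
    refine sum_congr rfl fun x hx => ?_
    rw [rot_apply, update_of_ne (ne_of_mem_erase hx)]
  rw [hrest, Nat.even_add, Nat.even_add]
  have hpar : Even ((rot i c i : Fin W) : ℕ) ↔ ¬ Even ((c i : Fin W) : ℕ) := by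
    rw [rot_apply, update_self]
    have hlt := (c i).isLt
    by_cases hlast : ((c i : Fin W) : ℕ) + 1 < W
    · rw [Fin.val_add_one_of_lt' hlast]
      exact Nat.even_add_one
    · have heq : ((c i : Fin W) : ℕ) + 1 = W := by omega
      have hz : ((c i + 1 : Fin W) : ℕ) = 0 := by
        rw [Fin.val_add, Fin.val_one', Nat.add_mod_mod, heq, Nat.mod_self]
      rw [hz]
      simp only [Even.zero, true_iff]
      rw [← heq] at hW
      exact Nat.even_add_one.mp hW
  rw [hpar]
  tauto

theorem nv_pos {δ : ℝ} (hδ : 0 < δ) (a : Fin W) : 0 < nv δ a := by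
  unfold nv; positivity

theorem one_lt_nv {δ : ℝ} (hδ : 0 < δ) (a : Fin W) : 1 < nv δ a := by
  unfold nv
  have : 0 < δ * ((a : ℕ) + 1 : ℝ) := by positivity
  linarith

theorem nv_le {δ η : ℝ} (hδ : 0 < δ) (hη : δ * W ≤ η) (a : Fin W) : nv δ a ≤ 1 + η := by
  unfold nv
  have h1 : ((a : ℕ) : ℝ) + 1 ≤ W := by
    have := a.isLt
    exact_mod_cast this
  have := mul_le_mul_of_nonneg_left h1 hδ.le
  linarith

theorem nv_lt {δ : ℝ} (hδ : 0 < δ) {a b : Fin W} (h : (a : ℕ) < b) : nv δ a < nv δ b := by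
  unfold nv
  have h1 : ((a : ℕ) : ℝ) + 1 < ((b : ℕ) : ℝ) + 1 := by
    have : ((a : ℕ) : ℝ) < ((b : ℕ) : ℝ) := by exact_mod_cast h
    linarith
  have := mul_lt_mul_of_pos_left h1 hδ
  linarith

theorem nv_inj {δ : ℝ} (hδ : 0 < δ) {a b : Fin W} (h : nv δ a = nv δ b) : a = b := by
  rcases lt_trichotomy (a : ℕ) b with h1 | h1 | h1
  · exact absurd h (ne_of_lt (nv_lt hδ h1))
  · exact Fin.ext h1
  · exact absurd h (ne_of_gt (nv_lt hδ h1))

omit [Fintype ι] in
theorem pt_pos {δ : ℝ} (hδ : 0 < δ) (j : ι) {t : ℝ} (ht : 0 < t) (c : ι → Fin W) :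
    PosVal (pt δ j t c) := by
  intro i
  unfold pt
  split_ifs
  · exact ht
  · exact nv_pos hδ _

omit [Fintype ι] in
theorem pt_update_other {δ : ℝ} {i j : ι} (hij : i ≠ j) (t : ℝ) (c : ι → Fin W) (a : Fin W) :
    update (pt δ j t c) i (nv δ a) = pt δ j t (update c i a) := by
  funext x
  by_cases hx : x = i
  · subst hx
    simp [pt, hij]
  · by_cases hx2 : x = j
    · simp [pt, hx2, Ne.symm hij]
    · simp [pt, hx, hx2]

omit [Fintype ι] in
theorem pt_update_self {δ : ℝ} (j : ι) (t t' : ℝ) (c : ι → Fin W) :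
    update (pt δ j t c) j t' = pt δ j t' c := by
  funext x
  by_cases hx : x = j
  · subst hx
    simp [pt]
  · simp [pt, hx]

theorem card_even_odd (hW : Even W) {i j : ι} (hij : i ≠ j) [DecidablePred (ev (W := W) j)] :
    (univ.filter (fun c : ι → Fin W => ev j c)).card =
      (univ.filter (fun c : ι → Fin W => ¬ ev j c)).card := by
  refine card_bij (fun c _ => rot i c) ?_ ?_ ?_
  · intro c hc
    rw [mem_filter] at hc ⊢
    refine ⟨mem_univ _, ?_⟩
    rw [ev_rot hW hij]
    exact not_not.mpr hc.2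
  · intro a _ b _ h
    exact (rot i).injective h
  · intro b hb
    rw [mem_filter] at hb
    refine ⟨(rot i).symm b, ?_, by simp⟩
    rw [mem_filter]
    refine ⟨mem_univ _, ?_⟩
    have h := ev_rot hW hij ((rot i).symm b)
    rw [Equiv.apply_symm_apply] at h
    tauto

theorem card_last (i : ι) (a : Fin W) :
    ((univ.filter (fun c : ι → Fin W => c i = a)).card : ℝ) * W = (W : ℝ) ^ Fintype.card ι := by
  have h1 : univ.filter (fun c : ι → Fin W => c i = a) =
      Fintype.piFinset (fun i' => if i' = i then {a} else univ) := by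
    ext c
    simp only [mem_filter, mem_univ, true_and, Fintype.mem_piFinset]
    constructor
    · intro h i'
      by_cases hi : i' = i
      · subst hi; simp [h]
      · simp [hi]
    · intro h
      have := h i
      simpa using this
  rw [h1, Fintype.card_piFinset, ← mul_prod_erase _ _ (mem_univ i)]
  have h2 : ∏ x ∈ univ.erase i, (if x = i then ({a} : Finset (Fin W)) else univ).card =
      W ^ (Fintype.card ι - 1) := by
    rw [prod_congr rfl (g := fun _ => W)]
    · rw [prod_const, card_erase_of_mem (mem_univ i), card_univ]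
    · intro x hx
      rw [if_neg (ne_of_mem_erase hx), card_univ, Fintype.card_fin]
  rw [h2]
  have hpos : 0 < Fintype.card ι := Fintype.card_pos_iff.mpr ⟨i⟩
  simp only [if_true, card_singleton, one_mul]
  push_cast
  rw [← pow_succ, Nat.sub_add_cancel hpos]

/-- the largest code -/
def topc (W : ℕ) [NeZero W] : Fin W := ⟨W - 1, Nat.sub_lt (Nat.pos_of_ne_zero (NeZero.ne W)) one_pos⟩

section World

variable (M : Mechanism ι) {δ η H : ℝ} (j : ι)

open Classical in
/-- shifting the code of bidder `i` up does not decrease her winning probability -/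
theorem even_le_odd (hW : Even W) (hδ : 0 < δ) {i : ι} (hij : i ≠ j) {t : ℝ} (ht : 0 < t) :
    ∑ c ∈ univ.filter (fun c : ι → Fin W => ev j c), M.x (pt δ j t c) i ≤
      ∑ c ∈ univ.filter (fun c : ι → Fin W => ¬ ev j c), M.x (pt δ j t c) i +
        (univ.filter (fun c : ι → Fin W => c i = topc W)).card := by
  have h1 : ∑ c ∈ univ.filter (fun c : ι → Fin W => ¬ ev j c), M.x (pt δ j t c) i =
      ∑ c ∈ univ.filter (fun c : ι → Fin W => ev j c), M.x (pt δ j t (rot i c)) i := by
    symm
    refine sum_bij (fun c _ => rot i c) ?_ ?_ ?_ ?_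
    · intro c hc
      rw [mem_filter] at hc ⊢
      refine ⟨mem_univ _, ?_⟩
      rw [ev_rot hW hij]
      exact not_not.mpr hc.2
    · intro a _ b _ h
      exact (rot i).injective h
    · intro b hb
      rw [mem_filter] at hb
      refine ⟨(rot i).symm b, ?_, by simp⟩
      rw [mem_filter]
      refine ⟨mem_univ _, ?_⟩
      have h := ev_rot hW hij ((rot i).symm b)
      rw [Equiv.apply_symm_apply] at h
      tauto
    · intro c _
      rfl
  have h2 : ((univ.filter (fun c : ι → Fin W => c i = topc W)).card : ℝ) =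
      ∑ c : ι → Fin W, if c i = topc W then (1 : ℝ) else 0 := by
    rw [card_eq_sum_ones, sum_filter]
    push_cast
    rfl
  have h3 : ∑ c ∈ univ.filter (fun c : ι → Fin W => ev j c),
      (if c i = topc W then (1 : ℝ) else 0) ≤
      ∑ c : ι → Fin W, if c i = topc W then (1 : ℝ) else 0 := by
    refine sum_le_sum_of_subset_of_nonneg (filter_subset _ _) fun c _ _ => ?_
    split_ifs <;> norm_num
  rw [h1, h2]
  refine le_trans ?_ (add_le_add_right h3 _)
  rw [← sum_add_distrib]
  refine sum_le_sum fun c _ => ?_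
  have hp := pt_pos hδ j ht c
  by_cases hc : c i = topc W
  · rw [if_pos hc]
    have h4 := M.x_le_one hp i
    have h5 := M.alloc_nonneg _ (pt_pos hδ j ht (rot i c)) i
    linarith
  · rw [if_neg hc, add_zero]
    have hlt : ((c i : Fin W) : ℕ) + 1 < W := by
      have h6 := (c i).isLt
      by_contra h7
      apply hc
      apply Fin.ext
      simp only [topc]
      omega
    have h8 : pt δ j t (rot i c) = update (pt δ j t c) i (nv δ (c i + 1)) := by
      rw [pt_update_other hij]
      rfl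
    rw [h8]
    refine M.x_mono hp i ?_
    have h9 : pt δ j t c i = nv δ (c i) := by simp [pt, hij]
    rw [h9]
    refine nv_lt hδ ?_
    rw [Fin.val_add_one_of_lt' hlt]
    omega

/-- revenue from an odd code -/
theorem odd_point (hδ : 0 < δ) (hη : δ * W ≤ η) (c : ι → Fin W) :
    ∑ i, M.p (pt δ j 2 c) i ≤
      2 * M.x (pt δ j 2 c) j + (1 + η) * ∑ i ∈ univ.erase j, M.x (pt δ j 2 c) i := by
  have hp := pt_pos hδ j (two_pos) c
  rw [← add_sum_erase _ _ (mem_univ j), mul_sum]
  refine add_le_add ?_ (sum_le_sum fun i hi => ?_)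
  · have := M.p_le hp j
    have h2 : pt δ j 2 c j = 2 := by simp [pt]
    rw [h2] at this
    linarith
  · have hij : i ≠ j := ne_of_mem_erase hi
    have h1 := M.p_le hp i
    have h2 : pt δ j 2 c i = nv δ (c i) := by simp [pt, hij]
    rw [h2] at h1
    have h3 := nv_le hδ hη (c i)
    have h4 := M.alloc_nonneg _ hp i
    nlinarith

/-- revenue from an even code -/
theorem even_point (hδ : 0 < δ) (hη : δ * W ≤ η) (hH : 1 + η ≤ H) (hH2 : 2 < H)
    (c : ι → Fin W) :
    ∑ i, M.p (pt δ j 2 c) i + 2 / H * ∑ i, M.p (pt δ j H c) i ≤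
      4 / H + 2 + (1 + η) * ∑ i ∈ univ.erase j, M.x (pt δ j 2 c) i := by
  have hp := pt_pos hδ j (two_pos) c
  have hH0 : 0 < H := by linarith
  have hq := pt_pos hδ j hH0 c
  have hupd : update (pt δ j 2 c) j H = pt δ j H c := pt_update_self j 2 H c
  have h2 : pt δ j 2 c j = 2 := by simp [pt]
  -- bidder j
  have hstep := M.p_step hp j hH0
  rw [hupd] at hstep
  have hple := M.p_le hp j
  rw [h2] at hple
  have hj : M.p (pt δ j 2 c) j + 2 / H * M.p (pt δ j H c) j ≤
      4 / H * M.x (pt δ j 2 c) j + 2 * M.x (pt δ j H c) j := by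
    have h3 : 2 / H * M.p (pt δ j H c) j ≤
        2 / H * (M.p (pt δ j 2 c) j + H * (M.x (pt δ j H c) j - M.x (pt δ j 2 c) j)) :=
      mul_le_mul_of_nonneg_left hstep (by positivity)
    have h4 : 2 / H * (M.p (pt δ j 2 c) j + H * (M.x (pt δ j H c) j - M.x (pt δ j 2 c) j)) =
        2 / H * M.p (pt δ j 2 c) j + 2 * (M.x (pt δ j H c) j - M.x (pt δ j 2 c) j) := by
      field_simp
    have h5 : 2 / H * M.p (pt δ j 2 c) j ≤ 2 / H * (M.x (pt δ j 2 c) j * 2) :=
      mul_le_mul_of_nonneg_left hple (by positivity)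
    have h6 : 2 / H * (M.x (pt δ j 2 c) j * 2) = 4 / H * M.x (pt δ j 2 c) j := by ring
    linarith
  -- other bidders
  have h7 : ∑ i ∈ univ.erase j, M.p (pt δ j 2 c) i ≤
      (1 + η) * ∑ i ∈ univ.erase j, M.x (pt δ j 2 c) i := by
    rw [mul_sum]
    refine sum_le_sum fun i hi => ?_
    have hij : i ≠ j := ne_of_mem_erase hi
    have h1 := M.p_le hp i
    have h2 : pt δ j 2 c i = nv δ (c i) := by simp [pt, hij]
    rw [h2] at h1
    have h3 := nv_le hδ hη (c i)
    have h4 := M.alloc_nonneg _ hp i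
    nlinarith
  have h8 : 2 / H * ∑ i ∈ univ.erase j, M.p (pt δ j H c) i ≤
      2 * ∑ i ∈ univ.erase j, M.x (pt δ j H c) i := by
    rw [mul_sum, mul_sum]
    refine sum_le_sum fun i hi => ?_
    have hij : i ≠ j := ne_of_mem_erase hi
    have h1 := M.p_le hq i
    have h2 : pt δ j H c i = nv δ (c i) := by simp [pt, hij]
    rw [h2] at h1
    have h3 := nv_le hδ hη (c i)
    have h4 := M.alloc_nonneg _ hq i
    have h5 : M.p (pt δ j H c) i ≤ M.x (pt δ j H c) i * H := by nlinarith
    have h6 := mul_le_mul_of_nonneg_left h5 (show (0:ℝ) ≤ 2 / H by positivity)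
    have h9 : 2 / H * (M.x (pt δ j H c) i * H) = 2 * M.x (pt δ j H c) i := by field_simp
    linarith
  have h9 : M.x (pt δ j H c) j + ∑ i ∈ univ.erase j, M.x (pt δ j H c) i ≤ 1 := by
    rw [add_sum_erase _ _ (mem_univ j)]
    exact M.alloc_sum_le _ hq
  have h10 : 4 / H * M.x (pt δ j 2 c) j ≤ 4 / H := by
    have := M.x_le_one hp j
    have h11 : (0:ℝ) ≤ 4 / H := by positivity
    nlinarith
  rw [← add_sum_erase _ _ (mem_univ j), ← add_sum_erase _ (fun i => M.p (pt δ j H c) i)
    (mem_univ j)]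
  rw [mul_add]
  linarith

open Classical in
/-- revenue from world `j` -/
theorem world_le (hW : Even W) (hδ : 0 < δ) (hη : δ * W ≤ η) (hη1 : η ≤ 1) (hH2 : 2 < H)
    (hHη : 2 / H ≤ η) (hk : (Fintype.card ι : ℝ) / W ≤ η) (hcard : 2 ≤ Fintype.card ι) :
    ∑ c : ι → Fin W, (∑ i, M.p (pt δ j 2 c) i +
      if ev j c then 2 / H * ∑ i, M.p (pt δ j H c) i else 0) ≤
      (W : ℝ) ^ Fintype.card ι * (2 + 4 * η) := by
  have hη0 : 0 ≤ η := le_trans (by positivity) hη
  set E := univ.filter (fun c : ι → Fin W => ev j c) with hE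
  set O := univ.filter (fun c : ι → Fin W => ¬ ev j c) with hO
  set A : ι → ℝ := fun i => ∑ c ∈ O, M.x (pt δ j 2 c) i with hA
  set B : ι → ℝ := fun i => ∑ c ∈ E, M.x (pt δ j 2 c) i with hB
  set N : ℝ := (W : ℝ) ^ Fintype.card ι with hN
  have hWpos : (0 : ℝ) < W := by
    have := Nat.pos_of_ne_zero (NeZero.ne W)
    exact_mod_cast this
  have hN0 : 0 ≤ N := by positivity
  -- the numbers of odd and even codes
  obtain ⟨i0, hi0⟩ : ∃ i0 : ι, i0 ≠ j := by
    have : 1 < Fintype.card ι := hcard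
    exact Fintype.exists_ne_of_one_lt_card this j
  have hEO : (E.card : ℝ) = O.card := by
    exact_mod_cast card_even_odd hW hi0
  have hEON : (E.card : ℝ) + O.card = N := by
    have h1 : E.card + O.card = (univ : Finset (ι → Fin W)).card := by
      rw [hE, hO]
      exact card_filter_add_card_filter_not _
    have h2 : (univ : Finset (ι → Fin W)).card = W ^ Fintype.card ι := by
      simp
    rw [h2] at h1
    have h3 := congrArg (fun n : ℕ => (n : ℝ)) h1
    push_cast at h3
    exact h3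
  -- splitting the sum
  have hsplit : ∑ c : ι → Fin W, (∑ i, M.p (pt δ j 2 c) i +
      if ev j c then 2 / H * ∑ i, M.p (pt δ j H c) i else 0) =
      ∑ c ∈ E, (∑ i, M.p (pt δ j 2 c) i + 2 / H * ∑ i, M.p (pt δ j H c) i) +
        ∑ c ∈ O, ∑ i, M.p (pt δ j 2 c) i := by
    rw [← sum_filter_add_sum_filter_not univ (fun c : ι → Fin W => ev j c)]
    refine congrArg₂ _ (sum_congr rfl fun c hc => ?_) (sum_congr rfl fun c hc => ?_)
    · rw [if_pos (mem_filter.mp hc).2]
    · rw [if_neg (mem_filter.mp hc).2, add_zero]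
  rw [hsplit]
  have hEle : ∑ c ∈ E, (∑ i, M.p (pt δ j 2 c) i + 2 / H * ∑ i, M.p (pt δ j H c) i) ≤
      E.card * (4 / H + 2) + (1 + η) * ∑ i ∈ univ.erase j, B i := by
    refine le_trans (sum_le_sum fun c _ => even_point M j hδ hη (by linarith) hH2 c) ?_
    rw [sum_add_distrib, sum_const, nsmul_eq_mul, ← mul_sum, sum_comm]
  have hOle : ∑ c ∈ O, ∑ i, M.p (pt δ j 2 c) i ≤
      2 * A j + (1 + η) * ∑ i ∈ univ.erase j, A i := by
    refine le_trans (sum_le_sum fun c _ => odd_point M j hδ hη c) ?_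
    rw [sum_add_distrib, ← mul_sum, ← mul_sum, sum_comm]
  have hBA : ∀ i ∈ univ.erase j, B i ≤ A i + N / W := by
    intro i hi
    have hij : i ≠ j := ne_of_mem_erase hi
    have h1 := even_le_odd M j hW hδ hij (two_pos)
    have h2 : ((univ.filter (fun c : ι → Fin W => c i = topc W)).card : ℝ) = N / W := by
      rw [eq_div_iff hWpos.ne']
      exact card_last i (topc W)
    rw [h2] at h1
    exact h1
  have hBsum : ∑ i ∈ univ.erase j, B i ≤ ∑ i ∈ univ.erase j, A i + Fintype.card ι * (N / W) := by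
    refine le_trans (sum_le_sum hBA) ?_
    rw [sum_add_distrib, sum_const, nsmul_eq_mul]
    have h1 : (((univ : Finset ι).erase j).card : ℝ) ≤ Fintype.card ι := by
      have := card_le_univ ((univ : Finset ι).erase j)
      exact_mod_cast this
    have h2 : 0 ≤ N / W := by positivity
    have := mul_le_mul_of_nonneg_right h1 h2
    linarith
  have hAsum : A j + ∑ i ∈ univ.erase j, A i ≤ O.card := by
    rw [add_sum_erase _ _ (mem_univ j), hA, sum_comm]
    calc ∑ c ∈ O, ∑ i, M.x (pt δ j 2 c) i ≤ ∑ c ∈ O, (1 : ℝ) :=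
          sum_le_sum fun c _ => M.alloc_sum_le _ (pt_pos hδ j two_pos c)
      _ = O.card := by simp
  have hA0 : ∀ i, 0 ≤ A i := fun i => sum_nonneg fun c _ =>
    M.alloc_nonneg _ (pt_pos hδ j two_pos c) i
  have hkN : (Fintype.card ι : ℝ) * (N / W) ≤ η * N := by
    have : (Fintype.card ι : ℝ) * (N / W) = (Fintype.card ι : ℝ) / W * N := by ring
    rw [this]
    exact mul_le_mul_of_nonneg_right hk hN0
  have hE2 : (E.card : ℝ) = N / 2 := by linarith
  have hO2 : (O.card : ℝ) = N / 2 := by linarith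
  have hH4 : 4 / H ≤ 2 * η := by
    have : 4 / H = 2 * (2 / H) := by ring
    rw [this]; linarith
  have hAj := hA0 j
  have hAr : 0 ≤ ∑ i ∈ univ.erase j, A i := sum_nonneg fun i _ => hA0 i
  have h1 : E.card * (4 / H + 2) ≤ N / 2 * (2 * η + 2) := by
    rw [hE2]
    exact mul_le_mul_of_nonneg_left (by linarith) (by positivity)
  have h2 : (1 + η) * ∑ i ∈ univ.erase j, B i ≤
      (1 + η) * (∑ i ∈ univ.erase j, A i + η * N) :=
    mul_le_mul_of_nonneg_left (by linarith) (by linarith)
  have h3 : 2 * (1 + η) * (A j + ∑ i ∈ univ.erase j, A i) ≤ 2 * (1 + η) * (N / 2) := by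
    rw [← hO2]
    exact mul_le_mul_of_nonneg_left hAsum (by linarith)
  have h4 : 0 ≤ η * A j := mul_nonneg hη0 hAj
  have h5 : η * (η * N) ≤ 1 * (η * N) := mul_le_mul_of_nonneg_right hη1 (by positivity)
  nlinarith

end World

end Pool.Agent.H837R3.LA
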