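import Mathlib

set_option autoImplicit false

/-!
Single-item auctions with correlated bidders and the `k`-lookahead mechanism: definitions.
-/

namespace Pool.Agent.H837R3.LA

open Finset Function

/-- a valuation vector has positive entries -/
def PosVal {ι : Type} (v : ι → ℝ) : Prop := ∀ i, 0 < v i

/-- A mechanism with bidder set `ι`, defined on all positive valuation vectors (the values of `x`
and `p` at other vectors are irrelevant): allocation probabilities `x`, expected payments `p`,
truthful in expectation and individually rational. -/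
structure Mechanism (ι : Type) [Fintype ι] [DecidableEq ι] where
  /-- `x v i`: the probability that bidder `i` gets the item at the bids `v` -/
  x : (ι → ℝ) → ι → ℝ
  /-- `p v i`: the expected payment of bidder `i` at the bids `v` -/
  p : (ι → ℝ) → ι → ℝ
  alloc_nonneg : ∀ v, PosVal v → ∀ i, 0 ≤ x v i
  alloc_sum_le : ∀ v, PosVal v → ∑ i, x v i ≤ 1
  truthful : ∀ v, PosVal v → ∀ i, ∀ b : ℝ, 0 < b →
    x (update v i b) i * v i - p (update v i b) i ≤ x v i * v i - p v i
  rational : ∀ v, PosVal v → ∀ i, 0 ≤ x v i * v i - p v i

/-- `D` is a finitely supported probability distribution on positive valuation vectors -/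
def IsDist {ι : Type} (D : (ι → ℝ) →₀ ℝ) : Prop :=
  (∀ v, 0 ≤ D v) ∧ (∀ v ∈ D.support, PosVal v) ∧ D.sum (fun _ m => m) = 1

/-- the expected revenue `E_{v ∼ D} [∑ i, p_i(v)]` of the mechanism `M` -/
noncomputable def revenue {ι : Type} [Fintype ι] [DecidableEq ι] (D : (ι → ℝ) →₀ ℝ)
    (M : Mechanism ι) : ℝ :=
  D.sum fun v m => m * ∑ i, M.p v i

/-- `OPT(D)`: the supremum of the expected revenues of all mechanisms -/
noncomputable def OPT {ι : Type} [Fintype ι] [DecidableEq ι] (D : (ι → ℝ) →₀ ℝ) : ℝ :=
  sSup (Set.range (revenue D))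

/-- bidder `j` is ranked above bidder `i`: a higher value, or the same value and a smaller index -/
def Above {n : ℕ} (v : Fin n → ℝ) (j i : Fin n) : Prop := v i < v j ∨ (v j = v i ∧ j < i)

open Classical in
/-- the set `K` of the `k` highest bidders, ties broken by index: the bidders with fewer than `k`
bidders ranked above them -/
noncomputable def topSet (k : ℕ) {n : ℕ} (v : Fin n → ℝ) : Finset (Fin n) :=
  univ.filter fun i => (univ.filter fun j => Above v j i).card < k

/-- the values of the bidders in `K` -/
def inside {n : ℕ} (K : Finset (Fin n)) (v : Fin n → ℝ) : {i // i ∈ K} → ℝ := fun i => v i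

/-- the values of the bidders outside `K` -/
def outside {n : ℕ} (K : Finset (Fin n)) (v : Fin n → ℝ) : {j // j ∉ K} → ℝ := fun j => v j

/-- the event that the values outside `K` are `w` and every value in `K` is at least
`v^* = max_{j ∉ K} w_j` -/
def CondEvent {n : ℕ} (K : Finset (Fin n)) (w : {j // j ∉ K} → ℝ) (v : Fin n → ℝ) : Prop :=
  outside K v = w ∧ ∀ i ∈ K, ∀ j : {j // j ∉ K}, w j ≤ v i

open Classical in
/-- the distribution `D_K`: the conditional distribution of `(v_i)_{i ∈ K}` given the values `w`
outside `K` and given that `v_i ≥ v^*` for all `i ∈ K` -/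
noncomputable def condDist {n : ℕ} (D : (Fin n → ℝ) →₀ ℝ) (K : Finset (Fin n))
    (w : {j // j ∉ K} → ℝ) : ({i // i ∈ K} → ℝ) →₀ ℝ :=
  ((D.filter (CondEvent K w)).sum fun _ m => m)⁻¹ •
    (D.filter (CondEvent K w)).mapDomain (inside K)

/-- A `k`-lookahead mechanism for `D`: for every set `K` of bidders and all values `w` outside `K`
a mechanism for the bidders in `K`, which is revenue-maximizing for `D_K` whenever `K` is the set
of the `k` highest bidders at some `v` in the support of `D` and `w` are the values outside `K`
at `v`. -/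
structure Lookahead (k : ℕ) {n : ℕ} (D : (Fin n → ℝ) →₀ ℝ) where
  mech : (K : Finset (Fin n)) → ({j // j ∉ K} → ℝ) → Mechanism {i // i ∈ K}
  optimal : ∀ v ∈ D.support, ∀ M : Mechanism {i // i ∈ topSet k v},
    revenue (condDist D (topSet k v) (outside (topSet k v) v)) M ≤
      revenue (condDist D (topSet k v) (outside (topSet k v) v))
        (mech (topSet k v) (outside (topSet k v) v))

/-- the expected revenue of a `k`-lookahead mechanism under `D`: at `v` the bidders in the set `K`
of the `k` highest bidders are served by the chosen mechanism for `D_K`, and the bidders outside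
`K` get and pay nothing -/
noncomputable def Lookahead.rev {k n : ℕ} {D : (Fin n → ℝ) →₀ ℝ} (L : Lookahead k D) : ℝ :=
  D.sum fun v m => m * ∑ i : {i // i ∈ topSet k v},
    (L.mech (topSet k v) (outside (topSet k v) v)).p (inside (topSet k v) v) i

/-- the approximation ratios `rev_k(D) / OPT(D)` over all `n` and all `D` with `OPT(D) > 0` -/
def ratioSet (k : ℕ) : Set ℝ :=
  {r | ∃ (n : ℕ) (D : (Fin n → ℝ) →₀ ℝ) (L : Lookahead k D),
    IsDist D ∧ 0 < OPT D ∧ r = L.rev / OPT D}

/-- the approximation ratio `ρ_k` of the `k`-lookahead mechanism -/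
noncomputable def rho (k : ℕ) : ℝ := sInf (ratioSet k)

end Pool.Agent.H837R3.LA
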