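import Pool.Agent.H837R3.LA.Core

set_option autoImplicit false
set_option linter.unusedSectionVars false

namespace Pool.Agent.H837R3.LA

open Finset Function

section Posted

variable {ι : Type} [Fintype ι] [DecidableEq ι]

open Classical in
/-- a posted-price mechanism -/
noncomputable def posted (act : ι → (ι → ℝ) → Prop) (pr : ι → (ι → ℝ) → ℝ)
    (ha : ∀ i v b, act i (update v i b) ↔ act i v)
    (hp : ∀ i v b, pr i (update v i b) = pr i v)
    (hone : ∀ v, PosVal v → ∀ i i', i ≠ i' → act i v → pr i v ≤ v i → act i' v →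
      pr i' v ≤ v i' → False) : Mechanism ι where
  x v i := if act i v ∧ pr i v ≤ v i then 1 else 0
  p v i := if act i v ∧ pr i v ≤ v i then pr i v else 0
  alloc_nonneg := by
    intro v _ i
    split_ifs <;> norm_num
  alloc_sum_le := by
    intro v hv
    by_cases h : ∃ i, act i v ∧ pr i v ≤ v i
    · obtain ⟨i, hi⟩ := h
      rw [sum_eq_single i]
      · rw [if_pos hi]
      · intro j _ hji
        rw [if_neg]
        intro hj
        exact hone v hv i j (Ne.symm hji) hi.1 hi.2 hj.1 hj.2
      · intro h; exact absurd (mem_univ i) h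
    · push Not at h
      rw [sum_eq_zero]
      · norm_num
      · intro i _
        rw [if_neg]
        rintro ⟨h1, h2⟩
        exact absurd h2 (not_le.mpr (h i h1))
  truthful := by
    intro v _ i b _
    rw [ha, hp, update_self]
    split_ifs with h1 h2 h2
    · linarith
    · have h3 : ¬ pr i v ≤ v i := fun h => h2 ⟨h1.1, h⟩
      push Not at h3
      linarith
    · linarith [h2.2]
    · linarith
  rational := by
    intro v _ i
    split_ifs with h
    · linarith [h.2]
    · simp

theorem posted_p_nonneg (act : ι → (ι → ℝ) → Prop) (pr : ι → (ι → ℝ) → ℝ)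
    (ha : ∀ i v b, act i (update v i b) ↔ act i v)
    (hp : ∀ i v b, pr i (update v i b) = pr i v)
    (hone : ∀ v, PosVal v → ∀ i i', i ≠ i' → act i v → pr i v ≤ v i → act i' v →
      pr i' v ≤ v i' → False) (v : ι → ℝ) (i : ι) (h : 0 ≤ pr i v) :
    0 ≤ (posted act pr ha hp hone).p v i := by
  unfold posted
  simp only
  split_ifs
  · exact h
  · exact le_refl 0

end Posted

variable {n : ℕ} (o : Fin n) {W : ℕ} [NeZero W]

/-- extension of a valuation vector of the bidders other than `o` by `v_o = 1` -/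
noncomputable def ext1 (K : Finset (Fin n)) (u : {i // i ∈ K} → ℝ) : Fin n → ℝ :=
  fun i => if h : i ∈ K then u ⟨i, h⟩ else 1

variable (W) in
/-- the values other than that of `j` match the codes `c` -/
def Mt (δ : ℝ) (j : {i // i ∈ univ.erase o}) (c : {i // i ∈ univ.erase o} → Fin W)
    (v : Fin n → ℝ) : Prop := ∀ i : {i // i ∈ univ.erase o}, i ≠ j → v i = nv δ (c i)

variable (W) in
def OddM (δ : ℝ) (j : {i // i ∈ univ.erase o}) (v : Fin n → ℝ) : Prop :=
  ∃ c, ¬ ev j c ∧ Mt o W δ j c v

variable (W) in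
open Classical in
noncomputable def pri (δ H : ℝ) (j : {i // i ∈ univ.erase o}) (v : Fin n → ℝ) : ℝ :=
  if OddM o W δ j v then 2 else H

variable (W) in
def Act (δ : ℝ) (j : {i // i ∈ univ.erase o}) (v : Fin n → ℝ) : Prop :=
  ∃ c, Mt o W δ j c v

variable (W) in
def Win (δ H : ℝ) (j : {i // i ∈ univ.erase o}) (v : Fin n → ℝ) : Prop :=
  Act o W δ j v ∧ pri o W δ H j v ≤ v j

theorem Mt_update_self (δ : ℝ) (j : {i // i ∈ univ.erase o})
    (c : {i // i ∈ univ.erase o} → Fin W) (v : Fin n → ℝ) (b : ℝ) :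
    Mt o W δ j c (update v j b) ↔ Mt o W δ j c v := by
  unfold Mt
  refine forall_congr' fun i => imp_congr_right fun hij => ?_
  rw [update_of_ne (fun h => hij (Subtype.ext h))]

theorem Mt_update_out (δ : ℝ) (j : {i // i ∈ univ.erase o})
    (c : {i // i ∈ univ.erase o} → Fin W) (v : Fin n → ℝ) (b : ℝ) :
    Mt o W δ j c (update v o b) ↔ Mt o W δ j c v := by
  unfold Mt
  refine forall_congr' fun i => imp_congr_right fun _ => ?_
  rw [update_of_ne (ne_of_mem_erase i.2)]

theorem pri_congr (δ H : ℝ) (j : {i // i ∈ univ.erase o}) {v v' : Fin n → ℝ}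
    (h : OddM o W δ j v ↔ OddM o W δ j v') : pri o W δ H j v = pri o W δ H j v' := by
  unfold pri
  by_cases h1 : OddM o W δ j v
  · rw [if_pos h1, if_pos (h.mp h1)]
  · rw [if_neg h1, if_neg (fun h2 => h1 (h.mpr h2))]

theorem pri_update_self (δ H : ℝ) (j : {i // i ∈ univ.erase o}) (v : Fin n → ℝ) (b : ℝ) :
    pri o W δ H j (update v j b) = pri o W δ H j v :=
  pri_congr o δ H j (exists_congr fun c => and_congr_right fun _ => Mt_update_self o δ j c v b)

theorem pri_update_out (δ H : ℝ) (j : {i // i ∈ univ.erase o}) (v : Fin n → ℝ) (b : ℝ) :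
    pri o W δ H j (update v o b) = pri o W δ H j v :=
  pri_congr o δ H j (exists_congr fun c => and_congr_right fun _ => Mt_update_out o δ j c v b)

theorem pri_ge {δ H : ℝ} (hH2 : 2 < H) (j : {i // i ∈ univ.erase o}) (v : Fin n → ℝ) :
    2 ≤ pri o W δ H j v := by
  unfold pri
  split_ifs
  · exact le_refl 2
  · exact hH2.le

theorem Win_update_out (δ H : ℝ) (j : {i // i ∈ univ.erase o}) (v : Fin n → ℝ) (b : ℝ) :
    Win o W δ H j (update v o b) ↔ Win o W δ H j v := by
  unfold Win
  rw [pri_update_out, update_of_ne (ne_of_mem_erase j.2)]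
  exact and_congr_left fun _ => exists_congr fun c => Mt_update_out o δ j c v b

theorem Mt_ev {δ : ℝ} (hδ : 0 < δ) (j : {i // i ∈ univ.erase o})
    {c c' : {i // i ∈ univ.erase o} → Fin W} {v : Fin n → ℝ}
    (h : Mt o W δ j c v) (h' : Mt o W δ j c' v) : ev j c ↔ ev j c' := by
  unfold ev
  rw [sum_congr rfl]
  intro i hi
  have hij : i ≠ j := ne_of_mem_erase hi
  have h1 := h i hij
  rw [h' i hij] at h1
  rw [nv_inj hδ h1]

variable (W) in
open Classical in
/-- the benchmark mechanism with an outside bidder -/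
noncomputable def bench {δ H η : ℝ} (hδ : 0 < δ) (hη : δ * W ≤ η) (hη1 : η < 1) (hH2 : 2 < H) :
    Mechanism (Fin n) :=
  posted
    (fun i v => if h : i ∈ univ.erase o then Act o W δ ⟨i, h⟩ v
      else ∀ j : {i // i ∈ univ.erase o}, ¬ Win o W δ H j v)
    (fun i v => if h : i ∈ univ.erase o then pri o W δ H ⟨i, h⟩ v else 1)
    (by
      intro i v b
      by_cases h : i ∈ univ.erase o
      · simp only [h, dif_pos]
        exact exists_congr fun c => Mt_update_self o δ ⟨i, h⟩ c v b
      · simp only [h, dif_neg, not_false_eq_true]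
        have ho : i = o := by
          by_contra hne
          exact h (mem_erase.mpr ⟨hne, mem_univ i⟩)
        subst ho
        exact forall_congr' fun j => not_congr (Win_update_out i δ H j v b))
    (by
      intro i v b
      by_cases h : i ∈ univ.erase o
      · simp only [h, dif_pos]
        exact pri_update_self o δ H ⟨i, h⟩ v b
      · simp only [h, dif_neg, not_false_eq_true])
    (by
      have key : ∀ v : Fin n → ℝ, ∀ i i' : {i // i ∈ univ.erase o}, i ≠ i' →
          Win o W δ H i v → Win o W δ H i' v → False := by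
        intro v i i' hne hi hi'
        obtain ⟨c, hc⟩ := hi.1
        have h1 := hc i' (Ne.symm hne)
        have h2 := nv_le hδ hη (c i')
        have h3 := hi'.2
        have h4 : 2 ≤ pri o W δ H i' v := pri_ge o hH2 i' v
        linarith
      intro v hv i i' hne hi hi2 hi' hi2'
      by_cases h : i ∈ univ.erase o
      · by_cases h' : i' ∈ univ.erase o
        · simp only [h, h', dif_pos] at hi hi2 hi' hi2'
          exact key v ⟨i, h⟩ ⟨i', h'⟩ (fun e => hne (congrArg Subtype.val e)) ⟨hi, hi2⟩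
            ⟨hi', hi2'⟩
        · simp only [h, h', dif_pos, dif_neg, not_false_eq_true] at hi hi2 hi' hi2'
          exact hi' ⟨i, h⟩ ⟨hi, hi2⟩
      · by_cases h' : i' ∈ univ.erase o
        · simp only [h, h', dif_pos, dif_neg, not_false_eq_true] at hi hi2 hi' hi2'
          exact hi ⟨i', h'⟩ ⟨hi', hi2'⟩
        · apply hne
          have ho : i = o := by
            by_contra hne
            exact h (mem_erase.mpr ⟨hne, mem_univ i⟩)
          have ho' : i' = o := by
            by_contra hne
            exact h' (mem_erase.mpr ⟨hne, mem_univ i'⟩)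
          rw [ho, ho'])

section Values

variable {δ H η : ℝ} (hδ : 0 < δ) (hη : δ * W ≤ η) (hη1 : η < 1) (hH2 : 2 < H)

include hδ hη hη1 hH2

theorem bench_p_nonneg (v : Fin n → ℝ) (i : Fin n) :
    0 ≤ (bench o W hδ hη hη1 hH2).p v i := by
  unfold bench
  refine posted_p_nonneg _ _ _ _ _ v i ?_
  by_cases h1 : i ∈ univ.erase o
  · have := pri_ge (W := W) o (δ := δ) hH2 ⟨i, h1⟩ v
    rw [dif_pos h1]
    linarith
  · rw [dif_neg h1]
    norm_num

theorem Mt_ext (j : {i // i ∈ univ.erase o}) (t : ℝ) (c : {i // i ∈ univ.erase o} → Fin W) :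
    Mt o W δ j c (ext1 (univ.erase o) (pt δ j t c)) := by
  intro i hij
  have := i.2
  simp only [ext1, this, dif_pos]
  simp [pt, hij]

theorem ext_self (j : {i // i ∈ univ.erase o}) (t : ℝ) (c : {i // i ∈ univ.erase o} → Fin W) :
    ext1 (univ.erase o) (pt δ j t c) j = t := by
  have := j.2
  simp only [ext1, this, dif_pos]
  simp [pt]

theorem bench_odd (j : {i // i ∈ univ.erase o}) (c : {i // i ∈ univ.erase o} → Fin W)
    (hc : ¬ ev j c) :
    2 ≤ ∑ i, (bench o W hδ hη hη1 hH2).p (ext1 (univ.erase o) (pt δ j 2 c)) i := by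
  refine le_trans ?_ (single_le_sum
    (f := fun i => (bench o W hδ hη hη1 hH2).p (ext1 (univ.erase o) (pt δ j 2 c)) i)
    (fun i _ => bench_p_nonneg o hδ hη hη1 hH2 _ i) (mem_univ (j : Fin n)))
  have hM := Mt_ext o hδ hη hη1 hH2 j 2 c
  have hs := ext_self o hδ hη hη1 hH2 j 2 c
  have hO : OddM o W δ j (ext1 (univ.erase o) (pt δ j 2 c)) := ⟨c, hc, hM⟩
  have hpr : pri o W δ H j (ext1 (univ.erase o) (pt δ j 2 c)) = 2 := by
    unfold pri; rw [if_pos hO]
  have hA : Act o W δ j (ext1 (univ.erase o) (pt δ j 2 c)) := ⟨c, hM⟩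
  unfold bench posted
  simp only [j.2, dif_pos, Subtype.coe_eta, hA, hpr, hs, true_and, le_refl, if_true]

theorem bench_even_high (j : {i // i ∈ univ.erase o}) (c : {i // i ∈ univ.erase o} → Fin W)
    (hc : ev j c) :
    H ≤ ∑ i, (bench o W hδ hη hη1 hH2).p (ext1 (univ.erase o) (pt δ j H c)) i := by
  refine le_trans ?_ (single_le_sum
    (f := fun i => (bench o W hδ hη hη1 hH2).p (ext1 (univ.erase o) (pt δ j H c)) i)
    (fun i _ => bench_p_nonneg o hδ hη hη1 hH2 _ i) (mem_univ (j : Fin n)))
  have hM := Mt_ext o hδ hη hη1 hH2 j H c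
  have hs := ext_self o hδ hη hη1 hH2 j H c
  have hO : ¬ OddM o W δ j (ext1 (univ.erase o) (pt δ j H c)) := by
    rintro ⟨c', hc', hM'⟩
    exact hc' ((Mt_ev o hδ j hM hM').mp hc)
  have hpr : pri o W δ H j (ext1 (univ.erase o) (pt δ j H c)) = H := by
    unfold pri; rw [if_neg hO]
  have hA : Act o W δ j (ext1 (univ.erase o) (pt δ j H c)) := ⟨c, hM⟩
  unfold bench posted
  simp only [j.2, dif_pos, Subtype.coe_eta, hA, hpr, hs, true_and, le_refl, if_true]

theorem bench_even_low (j : {i // i ∈ univ.erase o}) (c : {i // i ∈ univ.erase o} → Fin W)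
    (hc : ev j c) :
    1 ≤ ∑ i, (bench o W hδ hη hη1 hH2).p (ext1 (univ.erase o) (pt δ j 2 c)) i := by
  refine le_trans ?_ (single_le_sum
    (f := fun i => (bench o W hδ hη hη1 hH2).p (ext1 (univ.erase o) (pt δ j 2 c)) i)
    (fun i _ => bench_p_nonneg o hδ hη hη1 hH2 _ i) (mem_univ o))
  have hM := Mt_ext o hδ hη hη1 hH2 j 2 c
  have hs := ext_self o hδ hη hη1 hH2 j 2 c
  have hO : ¬ OddM o W δ j (ext1 (univ.erase o) (pt δ j 2 c)) := by
    rintro ⟨c', hc', hM'⟩
    exact hc' ((Mt_ev o hδ j hM hM').mp hc)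
  have hpr : pri o W δ H j (ext1 (univ.erase o) (pt δ j 2 c)) = H := by
    unfold pri; rw [if_neg hO]
  have hno : ∀ j' : {i // i ∈ univ.erase o},
      ¬ Win o W δ H j' (ext1 (univ.erase o) (pt δ j 2 c)) := by
    intro j' hw
    by_cases hjj : j' = j
    · subst hjj
      have := hw.2
      rw [hpr, hs] at this
      linarith
    · obtain ⟨c', hc'⟩ := hw.1
      have h1 := hc' j (Ne.symm hjj)
      rw [hs] at h1
      have h2 := nv_le hδ hη (c' j)
      linarith
  have hoK : o ∉ univ.erase o := notMem_erase o univ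
  have hvo : ext1 (univ.erase o) (pt δ j 2 c) o = 1 := by
    simp only [ext1, hoK, dif_neg, not_false_eq_true]
  unfold bench posted
  simp only [hoK, dif_neg, not_false_eq_true, hvo, hno, implies_true, true_and, le_refl, if_true]

end Values

end Pool.Agent.H837R3.LA
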