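import Pool.Agent.H837R3.LA.Lower

set_option autoImplicit false
set_option linter.unusedSectionVars false

namespace Pool.Agent.H837R3.LA

open Finset Function

/-! ### conditional distributions -/

theorem mapDomain_nonneg {α β : Type} (f : α → β) {μ : α →₀ ℝ} (h : ∀ a, 0 ≤ μ a) (b : β) :
    0 ≤ μ.mapDomain f b := by
  unfold Finsupp.mapDomain
  rw [Finsupp.sum_apply]
  refine sum_nonneg fun a _ => ?_
  classical
  simp only [Finsupp.single_apply]
  split_ifs
  · exact h a
  · exact le_refl 0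

theorem mapDomain_pos {α β : Type} (f : α → β) {μ : α →₀ ℝ} (h : ∀ a, 0 ≤ μ a) {a : α}
    (ha : 0 < μ a) : 0 < μ.mapDomain f (f a) := by
  unfold Finsupp.mapDomain
  rw [Finsupp.sum_apply]
  have hmem : a ∈ μ.support := Finsupp.mem_support_iff.mpr ha.ne'
  refine lt_of_lt_of_le ?_ (single_le_sum (f := fun a' => (Finsupp.single (f a') (μ a')) (f a))
    (fun a' _ => ?_) hmem)
  · simpa using ha
  · classical
    simp only [Finsupp.single_apply]
    split_ifs
    · exact h a'
    · exact le_refl 0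

theorem sum_nonneg' {α : Type} {μ : α →₀ ℝ} (h : ∀ a, 0 ≤ μ a) : 0 ≤ μ.sum fun _ m => m :=
  sum_nonneg fun a _ => h a

theorem filter_nonneg {α : Type} {μ : α →₀ ℝ} (h : ∀ a, 0 ≤ μ a) (P : α → Prop)
    [DecidablePred P] (a : α) : 0 ≤ μ.filter P a := by
  rw [Finsupp.filter_apply]
  split_ifs
  · exact h a
  · exact le_refl 0

variable {n : ℕ}

theorem condDist_nonneg {D : (Fin n → ℝ) →₀ ℝ} (h0 : ∀ v, 0 ≤ D v) (K : Finset (Fin n))
    (w : {j // j ∉ K} → ℝ) (u : {i // i ∈ K} → ℝ) : 0 ≤ condDist D K w u := by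
  classical
  unfold condDist
  rw [Finsupp.smul_apply, smul_eq_mul]
  refine mul_nonneg (inv_nonneg.mpr (sum_nonneg' ?_)) (mapDomain_nonneg _ ?_ _)
  · exact fun a => filter_nonneg h0 _ a
  · exact fun a => filter_nonneg h0 _ a

theorem condDist_support {D : (Fin n → ℝ) →₀ ℝ} (h1 : ∀ v ∈ D.support, PosVal v)
    (K : Finset (Fin n)) (w : {j // j ∉ K} → ℝ) :
    ∀ u ∈ (condDist D K w).support, PosVal u := by
  classical
  intro u hu
  unfold condDist at hu
  have h2 := Finsupp.mapDomain_support (Finsupp.support_smul hu)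
  rw [mem_image] at h2
  obtain ⟨v, hv, rfl⟩ := h2
  rw [Finsupp.support_filter, mem_filter] at hv
  intro i
  exact h1 v hv.1 i

theorem condDist_mem {D : (Fin n → ℝ) →₀ ℝ} (h0 : ∀ v, 0 ≤ D v) {v : Fin n → ℝ}
    (hv : v ∈ D.support) {K : Finset (Fin n)} (hK : CondEvent K (outside K v) v) :
    inside K v ∈ (condDist D K (outside K v)).support := by
  classical
  have hpos : 0 < D v := lt_of_le_of_ne (h0 v) (Ne.symm (Finsupp.mem_support_iff.mp hv))
  unfold condDist
  rw [Finsupp.mem_support_iff, Finsupp.smul_apply, smul_eq_mul]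
  refine (mul_pos (inv_pos.mpr ?_) (mapDomain_pos _ ?_ ?_)).ne'
  · have hmem : v ∈ (D.filter (CondEvent K (outside K v))).support := by
      rw [Finsupp.support_filter, mem_filter]
      exact ⟨hv, hK⟩
    unfold Finsupp.sum
    refine lt_of_lt_of_le ?_ (single_le_sum
      (f := fun a => (D.filter (CondEvent K (outside K v))) a)
      (fun a _ => filter_nonneg h0 _ a) hmem)
    rw [Finsupp.filter_apply_pos _ _ hK]
    exact hpos
  · exact fun a => filter_nonneg h0 _ a
  · rw [Finsupp.filter_apply_pos _ _ hK]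
    exact hpos

theorem Above.trans' {v : Fin n → ℝ} {a b c : Fin n} (h1 : Above v a b) (h2 : Above v b c) :
    Above v a c := by
  rcases h1 with h1 | ⟨h1, h1'⟩ <;> rcases h2 with h2 | ⟨h2, h2'⟩
  · exact Or.inl (h2.trans h1)
  · exact Or.inl (h2 ▸ h1)
  · exact Or.inl (h1 ▸ h2)
  · exact Or.inr ⟨h1.trans h2, h1'.trans h2'⟩

theorem condEvent_topSet (k : ℕ) (v : Fin n → ℝ) :
    CondEvent (topSet k v) (outside (topSet k v) v) v := by
  classical
  refine ⟨rfl, ?_⟩
  intro i hi j
  unfold outside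
  by_contra hlt
  push Not at hlt
  apply j.2
  unfold topSet at hi ⊢
  rw [mem_filter] at hi ⊢
  refine ⟨mem_univ _, lt_of_le_of_lt (card_le_card ?_) hi.2⟩
  intro l hl
  rw [mem_filter] at hl ⊢
  exact ⟨mem_univ _, hl.2.trans' (Or.inl hlt)⟩

/-- `k`-lookahead mechanisms exist -/
theorem exists_lookahead (k : ℕ) {D : (Fin n → ℝ) →₀ ℝ} (hD : IsDist D) :
    Nonempty (Lookahead k D) := by
  have h : ∀ (K : Finset (Fin n)) (w : {j // j ∉ K} → ℝ), ∃ M : Mechanism {i // i ∈ K},
      ∀ M' : Mechanism {i // i ∈ K}, revenue (condDist D K w) M' ≤ revenue (condDist D K w) M :=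
    fun K w => exists_optimal (condDist_nonneg hD.1 K w) (condDist_support hD.2.1 K w)
  choose M hM using h
  exact ⟨⟨M, fun v _ M' => hM _ _ M'⟩⟩

theorem rev_nonneg {k : ℕ} {D : (Fin n → ℝ) →₀ ℝ} (hD : IsDist D) (L : Lookahead k D) :
    0 ≤ L.rev := by
  unfold Lookahead.rev Finsupp.sum
  refine sum_nonneg fun v hv => mul_nonneg (hD.1 v) (sum_nonneg fun i _ => ?_)
  exact p_nonneg_of_optimal (condDist_nonneg hD.1 _ _) (condDist_support hD.2.1 _ _)
    (L.optimal v hv) (condDist_mem hD.1 hv (condEvent_topSet k v)) i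

theorem ratioSet_bdd (k : ℕ) : BddBelow (ratioSet k) := by
  refine ⟨0, ?_⟩
  rintro r ⟨n, D, L, hD, hO, rfl⟩
  exact div_nonneg (rev_nonneg hD L) hO.le

/-! ### the distribution -/

section Distribution

variable (k : ℕ) (W : ℕ) [NeZero W]

/-- the bidders other than the last one -/
abbrev Ins : Finset (Fin (k + 1)) := univ.erase (Fin.last k)

theorem card_Ins : Fintype.card {i // i ∈ Ins k} = k := by
  rw [Fintype.card_coe, card_erase_of_mem (mem_univ _), card_univ, Fintype.card_fin]
  rfl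

open Classical in
/-- unnormalised distribution of the values of the bidders other than the last one -/
noncomputable def mu0 (δ H : ℝ) : ({i // i ∈ Ins k} → ℝ) →₀ ℝ :=
  ∑ j : {i // i ∈ Ins k}, ∑ c : {i // i ∈ Ins k} → Fin W,
    (Finsupp.single (pt δ j 2 c) 1 + if ev j c then Finsupp.single (pt δ j H c) (2 / H) else 0)

open Classical in
theorem lc_mu0 (δ H : ℝ) (f : ({i // i ∈ Ins k} → ℝ) → ℝ) :
    Finsupp.linearCombination ℝ f (mu0 k W δ H) =
      ∑ j : {i // i ∈ Ins k}, ∑ c : {i // i ∈ Ins k} → Fin W,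
        (f (pt δ j 2 c) + if ev j c then 2 / H * f (pt δ j H c) else 0) := by
  unfold mu0
  simp only [map_sum, map_add]
  refine sum_congr rfl fun j _ => sum_congr rfl fun c _ => ?_
  split_ifs <;> simp [Finsupp.linearCombination_single]

/-- total mass -/
noncomputable def mass (δ H : ℝ) : ℝ := Finsupp.linearCombination ℝ (fun _ => (1 : ℝ)) (mu0 k W δ H)

/-- the distribution: the last bidder always has value `1` -/
noncomputable def dist (δ H : ℝ) : (Fin (k + 1) → ℝ) →₀ ℝ :=
  (mass k W δ H)⁻¹ • (mu0 k W δ H).mapDomain (ext1 (Ins k))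

theorem lc_dist (δ H : ℝ) (f : (Fin (k + 1) → ℝ) → ℝ) :
    Finsupp.linearCombination ℝ f (dist k W δ H) =
      (mass k W δ H)⁻¹ *
        Finsupp.linearCombination ℝ (fun u => f (ext1 (Ins k) u)) (mu0 k W δ H) := by
  unfold dist
  rw [map_smul, smul_eq_mul, Finsupp.linearCombination_mapDomain]
  rfl

variable {δ H η : ℝ}

theorem mu0_nonneg (hH : 0 < H) (u : {i // i ∈ Ins k} → ℝ) : 0 ≤ mu0 k W δ H u := by
  classical
  unfold mu0
  rw [Finsupp.finsetSum_apply]
  refine sum_nonneg fun j _ => ?_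
  rw [Finsupp.finsetSum_apply]
  refine sum_nonneg fun c _ => ?_
  rw [Finsupp.add_apply]
  refine add_nonneg ?_ ?_
  · rw [Finsupp.single_apply]
    split_ifs <;> norm_num
  · split_ifs
    · rw [Finsupp.single_apply]
      split_ifs
      · positivity
      · exact le_refl 0
    · simp

theorem mu0_support (hδ : 0 < δ) (hH2 : 2 < H) {u : {i // i ∈ Ins k} → ℝ}
    (hu : u ∈ (mu0 k W δ H).support) : ∀ i, 1 < u i := by
  classical
  by_contra hneg
  apply Finsupp.mem_support_iff.mp hu
  have key : ∀ (j : {i // i ∈ Ins k}) (t : ℝ), 1 < t → ∀ c : {i // i ∈ Ins k} → Fin W,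
      pt δ j t c ≠ u := by
    intro j t ht c he
    apply hneg
    intro i
    rw [← he]
    unfold pt
    split_ifs
    · exact ht
    · exact one_lt_nv hδ _
  unfold mu0
  rw [Finsupp.finsetSum_apply]
  refine sum_eq_zero fun j _ => ?_
  rw [Finsupp.finsetSum_apply]
  refine sum_eq_zero fun c _ => ?_
  rw [Finsupp.add_apply, Finsupp.single_apply, if_neg (key j 2 (by norm_num) c)]
  split_ifs
  · rw [Finsupp.single_apply, if_neg (key j H (by linarith) c)]
    simp
  · simp

theorem dist_support (hδ : 0 < δ) (hH2 : 2 < H) {v : Fin (k + 1) → ℝ}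
    (hv : v ∈ (dist k W δ H).support) :
    ∃ u : {i // i ∈ Ins k} → ℝ, (∀ i, 1 < u i) ∧ v = ext1 (Ins k) u := by
  classical
  unfold dist at hv
  have h2 := Finsupp.mapDomain_support (Finsupp.support_smul hv)
  rw [mem_image] at h2
  obtain ⟨u, hu, rfl⟩ := h2
  exact ⟨u, mu0_support k W hδ hH2 hu, rfl⟩

theorem mass_pos (hk : 0 < k) (hH : 0 < H) : 0 < mass k W δ H := by
  classical
  unfold mass
  rw [lc_mu0]
  have hne : Nonempty {i // i ∈ Ins k} := by
    rw [← Fintype.card_pos_iff, card_Ins]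
    exact hk
  have hne2 : Nonempty ({i // i ∈ Ins k} → Fin W) := ⟨fun _ => 0⟩
  refine sum_pos (fun j _ => sum_pos (fun c _ => ?_) univ_nonempty) univ_nonempty
  split_ifs
  · positivity
  · norm_num

theorem isDist_dist (hk : 0 < k) (hδ : 0 < δ) (hH2 : 2 < H) : IsDist (dist k W δ H) := by
  have hH : 0 < H := by linarith
  have hm := mass_pos k W (δ := δ) hk hH
  refine ⟨?_, ?_, ?_⟩
  · intro v
    unfold dist
    rw [Finsupp.smul_apply, smul_eq_mul]
    exact mul_nonneg (inv_nonneg.mpr hm.le) (mapDomain_nonneg _ (mu0_nonneg k W hH) _)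
  · intro v hv
    obtain ⟨u, hu, rfl⟩ := dist_support k W hδ hH2 hv
    intro i
    unfold ext1
    split_ifs with h
    · exact lt_trans one_pos (hu _)
    · exact one_pos
  · have h1 : (dist k W δ H).sum (fun _ m => m) =
        Finsupp.linearCombination ℝ (fun _ => (1 : ℝ)) (dist k W δ H) := by
      rw [Finsupp.linearCombination_apply]
      simp
    rw [h1, lc_dist]
    exact inv_mul_cancel₀ hm.ne'

theorem topSet_ext1 {u : {i // i ∈ Ins k} → ℝ} (hu : ∀ i, 1 < u i) :
    topSet k (ext1 (Ins k) u) = Ins k := by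
  classical
  have hlast : ext1 (Ins k) u (Fin.last k) = 1 := by
    have : Fin.last k ∉ Ins k := notMem_erase _ _
    simp only [ext1, this, dif_neg, not_false_eq_true]
  have hin : ∀ i (hi : i ∈ Ins k), 1 < ext1 (Ins k) u i := by
    intro i hi
    simp only [ext1, hi, dif_pos]
    exact hu _
  have hcard : (Ins k).card = k := by
    rw [card_erase_of_mem (mem_univ _), card_univ, Fintype.card_fin]
    rfl
  ext i
  unfold topSet
  rw [mem_filter]
  simp only [mem_univ, true_and]
  constructor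
  · intro h
    by_contra hi
    have hil : i = Fin.last k := by
      by_contra hne
      exact hi (mem_erase.mpr ⟨hne, mem_univ i⟩)
    subst hil
    have hsub : Ins k ⊆ univ.filter fun j => Above (ext1 (Ins k) u) j (Fin.last k) := by
      intro j hj
      rw [mem_filter]
      refine ⟨mem_univ _, Or.inl ?_⟩
      rw [hlast]
      exact hin j hj
    have := card_le_card hsub
    rw [hcard] at this
    omega
  · intro hi
    have hsub : (univ.filter fun j => Above (ext1 (Ins k) u) j i) ⊆ (Ins k).erase i := by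
      intro j hj
      rw [mem_filter] at hj
      have hj2 := hj.2
      rw [mem_erase]
      constructor
      · rintro rfl
        rcases hj2 with h | ⟨_, h⟩
        · exact lt_irrefl _ h
        · exact lt_irrefl _ h
      · by_contra hjn
        have hjl : j = Fin.last k := by
          by_contra hne
          exact hjn (mem_erase.mpr ⟨hne, mem_univ j⟩)
        subst hjl
        have h1 := hin i hi
        rcases hj2 with h | ⟨h, _⟩
        · rw [hlast] at h; linarith
        · rw [hlast] at h; linarith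
    have h1 := card_le_card hsub
    have h2 : 0 < (Ins k).card := card_pos.mpr ⟨i, hi⟩
    rw [card_erase_of_mem hi, hcard] at h1
    rw [hcard] at h2
    omega

theorem inside_ext1 (u : {i // i ∈ Ins k} → ℝ) : inside (Ins k) (ext1 (Ins k) u) = u := by
  funext i
  have := i.2
  simp only [inside, ext1, this, dif_pos]

theorem outside_ext1 (u : {i // i ∈ Ins k} → ℝ) :
    outside (Ins k) (ext1 (Ins k) u) = fun _ => 1 := by
  funext i
  have := i.2
  simp only [outside, ext1, this, dif_neg, not_false_eq_true]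

/-- the revenue of `k`-lookahead mechanisms on the distribution -/
theorem rev_le (hk : 2 ≤ k) (hW : Even W) (hδ : 0 < δ) (hη : δ * W ≤ η) (hη1 : η ≤ 1)
    (hH2 : 2 < H) (hHη : 2 / H ≤ η) (hkW : (k : ℝ) / W ≤ η)
    (L : Lookahead k (dist k W δ H)) :
    L.rev ≤ (mass k W δ H)⁻¹ * (k * ((W : ℝ) ^ k * (2 + 4 * η))) := by
  classical
  have hm := mass_pos k W (δ := δ) (H := H) (by omega) (by linarith)
  set M : Mechanism {i // i ∈ Ins k} := L.mech (Ins k) (fun _ => 1) with hM
  have h1 : L.rev = Finsupp.linearCombination ℝ (fun v => ∑ i, M.p (inside (Ins k) v) i)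
      (dist k W δ H) := by
    rw [Finsupp.linearCombination_apply]
    unfold Lookahead.rev Finsupp.sum
    refine sum_congr rfl fun v hv => ?_
    obtain ⟨u, hu, rfl⟩ := dist_support k W hδ hH2 hv
    have h2 : ∀ K : Finset (Fin (k + 1)), K = Ins k →
        ∑ i : {i // i ∈ K}, (L.mech K (outside K (ext1 (Ins k) u))).p
          (inside K (ext1 (Ins k) u)) i =
        ∑ i, M.p (inside (Ins k) (ext1 (Ins k) u)) i := by
      intro K hK
      subst hK
      rw [outside_ext1]
    have h3 := h2 _ (topSet_ext1 k hu)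
    simp only [smul_eq_mul]
    rw [h3]
  rw [h1, lc_dist]
  refine mul_le_mul_of_nonneg_left ?_ (inv_nonneg.mpr hm.le)
  rw [lc_mu0]
  simp only [inside_ext1]
  have hc := card_Ins k
  have h3 : ∀ j : {i // i ∈ Ins k}, ∑ c : {i // i ∈ Ins k} → Fin W,
      (∑ i, M.p (pt δ j 2 c) i + if ev j c then 2 / H * ∑ i, M.p (pt δ j H c) i else 0) ≤
      (W : ℝ) ^ k * (2 + 4 * η) := by
    intro j
    have := world_le M j hW hδ hη hη1 hH2 hHη (by rw [hc]; exact hkW) (by rw [hc]; exact hk)
    rw [hc] at this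
    exact this
  refine le_trans (sum_le_sum fun j _ => h3 j) ?_
  rw [sum_const, nsmul_eq_mul, card_univ, hc]

/-- the optimal revenue on the distribution -/
theorem OPT_ge (hk : 2 ≤ k) (hW : Even W) (hδ : 0 < δ) (hη : δ * W ≤ η) (hη1 : η < 1)
    (hH2 : 2 < H) :
    (mass k W δ H)⁻¹ * (k * ((W : ℝ) ^ k * (5 / 2))) ≤ OPT (dist k W δ H) := by
  classical
  have hH0 : 0 < H := by linarith
  have hm := mass_pos k W (δ := δ) (H := H) (by omega) hH0
  have hD : IsDist (dist k W δ H) := isDist_dist k W (by omega) hδ hH2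
  refine le_trans ?_ (revenue_le_OPT hD (bench (Fin.last k) W hδ hη hη1 hH2))
  rw [revenue_eq, lc_dist]
  refine mul_le_mul_of_nonneg_left ?_ (inv_nonneg.mpr hm.le)
  rw [lc_mu0]
  have hc := card_Ins k
  have h3 : ∀ j : {i // i ∈ Ins k}, (W : ℝ) ^ k * (5 / 2) ≤ ∑ c : {i // i ∈ Ins k} → Fin W,
      (∑ i, (bench (Fin.last k) W hδ hη hη1 hH2).p (ext1 (Ins k) (pt δ j 2 c)) i +
        if ev j c then 2 / H *
          ∑ i, (bench (Fin.last k) W hδ hη hη1 hH2).p (ext1 (Ins k) (pt δ j H c)) i else 0) := by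
    intro j
    obtain ⟨i0, hi0⟩ : ∃ i0 : {i // i ∈ Ins k}, i0 ≠ j := by
      have : 1 < Fintype.card {i // i ∈ Ins k} := by rw [hc]; exact hk
      exact Fintype.exists_ne_of_one_lt_card this j
    set E := univ.filter (fun c : {i // i ∈ Ins k} → Fin W => ev j c) with hE
    set O := univ.filter (fun c : {i // i ∈ Ins k} → Fin W => ¬ ev j c) with hO
    have hEO : (E.card : ℝ) = O.card := by
      exact_mod_cast card_even_odd hW hi0
    have hEON : (E.card : ℝ) + O.card = (W : ℝ) ^ k := by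
      have h1 : E.card + O.card = (univ : Finset ({i // i ∈ Ins k} → Fin W)).card := by
        rw [hE, hO]
        exact card_filter_add_card_filter_not _
      have h2 : (univ : Finset ({i // i ∈ Ins k} → Fin W)).card = W ^ k := by
        rw [card_univ, Fintype.card_fun, hc, Fintype.card_fin]
      rw [h2] at h1
      have h3 := congrArg (fun n : ℕ => (n : ℝ)) h1
      push_cast at h3
      exact h3
    rw [← sum_filter_add_sum_filter_not univ
      (fun c : {i // i ∈ Ins k} → Fin W => ev j c)]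
    have hEs : (E.card : ℝ) * 3 ≤ ∑ c ∈ E,
      (∑ i, (bench (Fin.last k) W hδ hη hη1 hH2).p (ext1 (Ins k) (pt δ j 2 c)) i +
        if ev j c then 2 / H *
          ∑ i, (bench (Fin.last k) W hδ hη hη1 hH2).p (ext1 (Ins k) (pt δ j H c)) i else 0) := by
      rw [← nsmul_eq_mul, ← sum_const]
      refine sum_le_sum fun c hc => ?_
      have hcE := (mem_filter.mp hc).2
      rw [if_pos hcE]
      have h1 := bench_even_low (Fin.last k) hδ hη hη1 hH2 j c hcE
      have h2 := bench_even_high (Fin.last k) hδ hη hη1 hH2 j c hcE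
      have h3 := mul_le_mul_of_nonneg_left h2 (show (0:ℝ) ≤ 2 / H by positivity)
      have h4 : 2 / H * H = 2 := by field_simp
      rw [h4] at h3
      linarith
    have hOs : (O.card : ℝ) * 2 ≤ ∑ c ∈ O,
      (∑ i, (bench (Fin.last k) W hδ hη hη1 hH2).p (ext1 (Ins k) (pt δ j 2 c)) i +
        if ev j c then 2 / H *
          ∑ i, (bench (Fin.last k) W hδ hη hη1 hH2).p (ext1 (Ins k) (pt δ j H c)) i else 0) := by
      rw [← nsmul_eq_mul, ← sum_const]
      refine sum_le_sum fun c hc => ?_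
      have hcO := (mem_filter.mp hc).2
      rw [if_neg hcO]
      have h1 := bench_odd (Fin.last k) hδ hη hη1 hH2 j c hcO
      linarith
    linarith
  refine le_trans ?_ (sum_le_sum fun j _ => h3 j)
  rw [sum_const, nsmul_eq_mul, card_univ, hc]

end Distribution

/-- for `k ≥ 2` and `ε > 0` there is a distribution with `k + 1` bidders on which every
`k`-lookahead mechanism has revenue at most `(4/5 + ε) OPT` -/
theorem main_dist (k : ℕ) (hk : 2 ≤ k) (ε : ℝ) (hε : 0 < ε) :
    ∃ D : (Fin (k + 1) → ℝ) →₀ ℝ, IsDist D ∧ 0 < OPT D ∧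
      ∀ L : Lookahead k D, L.rev ≤ (4 / 5 + ε) * OPT D := by
  set η : ℝ := min (1 / 2) (5 * ε / 8) with hη
  have hη0 : 0 < η := lt_min (by norm_num) (by positivity)
  have hη1 : η ≤ 1 / 2 := min_le_left _ _
  have hηε : 8 * η / 5 ≤ ε := by
    have := min_le_right (1 / 2) (5 * ε / 8)
    linarith
  set q : ℕ := ⌈(k : ℝ) / η⌉₊ with hq
  have hk0 : (0 : ℝ) < k := by
    have : 0 < k := by omega
    exact_mod_cast this
  have hq1 : (k : ℝ) / η ≤ q := Nat.le_ceil _
  have hq0 : (0 : ℝ) < q := lt_of_lt_of_le (by positivity) hq1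
  have hqn : 0 < q := by exact_mod_cast hq0
  set W : ℕ := 2 * q with hW
  have : NeZero W := ⟨by omega⟩
  have hWe : Even W := ⟨q, by omega⟩
  have hWr : (W : ℝ) = 2 * q := by rw [hW]; push_cast; ring
  have hW0 : (0 : ℝ) < W := by rw [hWr]; positivity
  have hkW : (k : ℝ) / W ≤ η := by
    rw [div_le_iff₀ hW0, hWr]
    rw [div_le_iff₀ hη0] at hq1
    nlinarith
  set δ : ℝ := η / W with hδ
  have hδ0 : 0 < δ := by positivity
  have hδW : δ * W ≤ η := by
    rw [hδ, div_mul_cancel₀ _ hW0.ne']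
  set H : ℝ := 2 / η + 3 with hH
  have hH2 : 2 < H := by
    have : 0 < 2 / η := by positivity
    linarith
  have hHη : 2 / H ≤ η := by
    rw [div_le_iff₀ (by linarith)]
    have : η * (2 / η) = 2 := by field_simp
    rw [hH, mul_add, this]
    linarith
  have hm := mass_pos k W (δ := δ) (H := H) (by omega) (by linarith)
  have hO := OPT_ge k W hk hWe hδ0 hδW (by linarith) hH2
  have hbase : 0 < (mass k W δ H)⁻¹ * (k * ((W : ℝ) ^ k * (5 / 2))) := by positivity
  have hOpos := lt_of_lt_of_le hbase hO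
  refine ⟨dist k W δ H, isDist_dist k W (by omega) hδ0 hH2, hOpos, fun L => ?_⟩
  have hR := rev_le k W hk hWe hδ0 hδW (by linarith) hH2 hHη hkW L
  refine le_trans hR ?_
  have h1 : (mass k W δ H)⁻¹ * (k * ((W : ℝ) ^ k * (2 + 4 * η))) =
      (4 / 5 + 8 * η / 5) * ((mass k W δ H)⁻¹ * (k * ((W : ℝ) ^ k * (5 / 2)))) := by ring
  rw [h1]
  refine le_trans (mul_le_mul_of_nonneg_left hO (by positivity)) ?_
  exact mul_le_mul_of_nonneg_right (by linarith) hOpos.le

/-- the approximation ratio is at most `4/5` for every `k ≥ 2` -/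
theorem rho_le (k : ℕ) (hk : 2 ≤ k) : rho k ≤ 4 / 5 := by
  refine le_of_forall_pos_le_add fun ε hε => ?_
  obtain ⟨D, hD, hO, hL⟩ := main_dist k hk ε hε
  obtain ⟨L⟩ := exists_lookahead k hD
  refine le_trans (csInf_le (ratioSet_bdd k) ⟨k + 1, D, L, hD, hO, rfl⟩) ?_
  rw [div_le_iff₀ hO]
  exact hL L

end Pool.Agent.H837R3.LA
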